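import Mathlib

namespace Pool.Agent.MP_c52a38_ag

open Matrix MeasureTheory
open scoped ENNReal Topology ComplexOrder

/-- The lattice in ℂ^g spanned over ℤ by a real basis; the complex torus is ℂ^g modulo it. -/
def lattice {g : ℕ} (b : Module.Basis (Fin (2 * g)) ℝ (Fin g → ℂ)) : Set (Fin g → ℂ) :=
  Submodule.span ℤ (Set.range b)

/-- The sesquilinear form H(z, w) with matrix H, linear in z and conjugate linear in w. -/
noncomputable def herm {g : ℕ} (H : Matrix (Fin g) (Fin g) ℂ) (z w : Fin g → ℂ) : ℂ :=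
  star w ⬝ᵥ (H *ᵥ z)

/-- H is the first Chern class (numerical class) of an ample ℚ-divisor on the torus: a positive
definite Hermitian form whose imaginary part is rational on the lattice. -/
def IsAmpleQClass {g : ℕ} (b : Module.Basis (Fin (2 * g)) ℝ (Fin g → ℂ))
    (H : Matrix (Fin g) (Fin g) ℂ) : Prop :=
  H.PosDef ∧ ∀ l ∈ lattice b, ∀ l' ∈ lattice b, ∃ q : ℚ, (herm H l l').im = q

/-- The top self-intersection number (B^g) = g! Pf(Im H), where Pf(Im H) is the square root of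
the determinant of the alternating form Im H in a lattice basis. -/
noncomputable def selfInter {g : ℕ} (b : Module.Basis (Fin (2 * g)) ℝ (Fin g → ℂ))
    (H : Matrix (Fin g) (Fin g) ℂ) : ℝ :=
  (g.factorial : ℝ) * Real.sqrt (Matrix.of fun i j => (herm H (b i) (b j)).im).det

/-- θ is a holomorphic section of an Appell-Humbert line bundle L(H, χ) for some χ: a canonical
theta function for the Hermitian form H. -/
def IsTheta {g : ℕ} (b : Module.Basis (Fin (2 * g)) ℝ (Fin g → ℂ))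
    (H : Matrix (Fin g) (Fin g) ℂ) (θ : (Fin g → ℂ) → ℂ) : Prop :=
  Differentiable ℂ θ ∧ ∀ l ∈ lattice b, ∃ χ : ℂ, ‖χ‖ = 1 ∧ ∀ z,
    θ (z + l) = χ * Complex.exp (Real.pi * herm H z l + Real.pi / 2 * herm H l l) * θ z

/-- (θ, m) represents an effective ℚ-divisor D = (1/m) div θ numerically equivalent to the
class H. -/
def IsEffectiveQDivisorOfClass {g : ℕ} (b : Module.Basis (Fin (2 * g)) ℝ (Fin g → ℂ))
    (H : Matrix (Fin g) (Fin g) ℂ) (θ : (Fin g → ℂ) → ℂ) (m : ℕ) : Prop :=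
  0 < m ∧ θ ≠ 0 ∧ IsTheta b ((m : ℂ) • H) θ

/-- The stalk at x of the multiplier ideal of D = (1/m) div θ: holomorphic f near x with
|f|^2 / |θ|^(2/m) integrable near x. -/
def multiplierIdealAt {g : ℕ} (θ : (Fin g → ℂ) → ℂ) (m : ℕ) (x : Fin g → ℂ) :
    Set ((Fin g → ℂ) → ℂ) :=
  {f | AnalyticAt ℂ f x ∧
    ∃ U ∈ 𝓝 x, ∫⁻ z in U, ‖f z‖ₑ ^ (2 : ℝ) / ‖θ z‖ₑ ^ (2 / (m : ℝ)) < ∞}

/-- The cosupport Z(D) of the multiplier ideal, pulled back to ℂ^g. -/
def cosupport {g : ℕ} (θ : (Fin g → ℂ) → ℂ) (m : ℕ) : Set (Fin g → ℂ) :=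
  {x | multiplierIdealAt θ m x ≠ {f | AnalyticAt ℂ f x}}

/-- The complex subspace W defines an abelian subvariety: the lattice points of W span W over
the reals. -/
def IsSubtorus {g : ℕ} (b : Module.Basis (Fin (2 * g)) ℝ (Fin g → ℂ))
    (W : Submodule ℂ (Fin g → ℂ)) : Prop :=
  Submodule.span ℝ ((W : Set (Fin g → ℂ)) ∩ lattice b) = W.restrictScalars ℝ

/-- The preimage in ℂ^g of the abelian subvariety defined by W. -/
def subtorusPreimage {g : ℕ} (b : Module.Basis (Fin (2 * g)) ℝ (Fin g → ℂ))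
    (W : Submodule ℂ (Fin g → ℂ)) : Set (Fin g → ℂ) :=
  {x | ∃ w ∈ W, ∃ l ∈ lattice b, x = w + l}

/-- (X, B) splits into polarized abelian subvarieties. -/
def Splits {g : ℕ} (b : Module.Basis (Fin (2 * g)) ℝ (Fin g → ℂ))
    (H : Matrix (Fin g) (Fin g) ℂ) : Prop :=
  ∃ W₁ W₂ : Submodule ℂ (Fin g → ℂ), W₁ ≠ ⊥ ∧ W₂ ≠ ⊥ ∧ IsSubtorus b W₁ ∧ IsSubtorus b W₂ ∧
    IsCompl W₁ W₂ ∧
    (∀ l ∈ lattice b, ∃ l₁ ∈ lattice b, ∃ l₂ ∈ lattice b, l₁ ∈ W₁ ∧ l₂ ∈ W₂ ∧ l = l₁ + l₂) ∧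
    ∀ w₁ ∈ W₁, ∀ w₂ ∈ W₂, herm H w₁ w₂ = 0

end Pool.Agent.MP_c52a38_ag
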